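import Pool.Agent.N781.S.Iso
import Pool.Agent.N821.A.Mult

/-!
# Comparison at one prime (`S_CMP` of project S)
-/

set_option autoImplicit false
set_option linter.unusedSectionVars false

namespace Pool.Agent.N97.CH

open Finset Pool.Agent.N675 Pool.Agent.N781.FV Pool.Agent.N781.A Pool.Agent.N781.S Pool.Agent.N821.A

lemma sq5 (p q r s t : ℝ) :
    (p + q + r + s + t) ^ 2 ≤ 5 * (p ^ 2 + q ^ 2 + r ^ 2 + s ^ 2 + t ^ 2) := by
  nlinarith [sq_nonneg (p - q), sq_nonneg (p - r), sq_nonneg (p - s), sq_nonneg (p - t),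
    sq_nonneg (q - r), sq_nonneg (q - s), sq_nonneg (q - t), sq_nonneg (r - s),
    sq_nonneg (r - t), sq_nonneg (s - t)]

lemma norm5 (u v w y z : ℂ) : ‖u + v + w + y + z‖ ^ 2 ≤
    5 * (‖u‖ ^ 2 + ‖v‖ ^ 2 + ‖w‖ ^ 2 + ‖y‖ ^ 2 + ‖z‖ ^ 2) := by
  have h1 : ‖u + v + w + y + z‖ ≤ ‖u‖ + ‖v‖ + ‖w‖ + ‖y‖ + ‖z‖ :=
    (norm_add_le _ _).trans (add_le_add ((norm_add_le _ _).trans (add_le_add
      ((norm_add_le _ _).trans (add_le_add (norm_add_le _ _) le_rfl)) le_rfl)) le_rfl)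
  exact (pow_le_pow_left₀ (norm_nonneg _) h1 2).trans (sq5 _ _ _ _ _)

lemma avr_le {N : ℕ} (hN : 0 < N) {f g₁ g₂ : ℤ → ℝ} {C τ : ℝ}
    (h : ∀ d, f d ≤ 5 * g₁ d + 5 * g₂ d + C) (h₁ : avr N g₁ ≤ τ) (h₂ : avr N g₂ ≤ τ) :
    avr N f ≤ 10 * τ + C := by
  have hN' : (0 : ℝ) < N := by exact_mod_cast hN
  unfold avr at h₁ h₂ ⊢
  rw [div_le_iff₀ hN'] at h₁ h₂ ⊢
  have hcard : ((((N : ℤ) + 1 - 1).toNat : ℕ) : ℝ) = (N : ℝ) := by
    have : ((N : ℤ) + 1 - 1).toNat = N := by omega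
    rw [this]
  calc ∑ n ∈ Icc (1 : ℤ) N, f n ≤ ∑ n ∈ Icc (1 : ℤ) N, (5 * g₁ n + 5 * g₂ n + C) :=
        Finset.sum_le_sum fun n _ => h n
    _ = 5 * (∑ n ∈ Icc (1 : ℤ) N, g₁ n) + 5 * (∑ n ∈ Icc (1 : ℤ) N, g₂ n) + N * C := by
        rw [Finset.sum_add_distrib, Finset.sum_add_distrib, ← Finset.mul_sum, ← Finset.mul_sum,
          Finset.sum_const, Int.card_Icc, nsmul_eq_mul, hcard]
    _ ≤ (10 * τ + C) * N := by nlinarith

theorem cmp : S_CMP := by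
  intro ι _ _ a b ha κ hκ hκ6
  set k : ℝ := ((Fintype.card ι : ℕ) : ℝ) with hk
  have hk0 : 0 ≤ k := by positivity
  refine ⟨⌈(4 * k + 1) / κ⌉₊ + ∑ t, (a t).natAbs + 1, fun P hP => ?_⟩
  refine ⟨⌈4 * (P : ℝ) * (1 / κ + 1)⌉₊ + 4 * P * ⌈(4 * k + 1) / κ⌉₊, fun D x hD hx F g P00 T hM S q
    hq hPq hqP h1 h2 z τ η hz hτ₁ hτ₂ hη => ?_⟩
  have hPk' : (4 * k + 1) / κ ≤ (P : ℝ) := (Nat.le_ceil _).trans (by exact_mod_cast (by omega))
  have hPk : 1 / κ ≤ (P : ℝ) := (div_le_div_of_nonneg_right (by linarith) hκ.le).trans hPk'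
  have haq : ∀ t, ¬ (q : ℤ) ∣ a t := by
    intro t hd
    have h3 : q ≤ (a t).natAbs := by
      have h4 := Int.natAbs_dvd_natAbs.2 hd
      rw [Int.natAbs_natCast] at h4
      exact Nat.le_of_dvd (Int.natAbs_pos.2 (ha t)) h4
    have h5 : (a t).natAbs ≤ ∑ t, (a t).natAbs :=
      Finset.single_le_sum (f := fun t => (a t).natAbs) (fun _ _ => Nat.zero_le _)
        (Finset.mem_univ t)
    omega
  have hceil : ∀ N : ℕ, ⌈4 * (P : ℝ) * (1 / κ + 1)⌉₊ + 4 * P * ⌈(4 * k + 1) / κ⌉₊ ≤ N →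
      4 * (P : ℝ) * (1 / κ + 1) ≤ N := fun N hN => (Nat.le_ceil _).trans (by
        exact_mod_cast (Nat.le_add_right _ _).trans hN)
  obtain ⟨hD0, -, -, -⟩ := ratio hκ hκ6 hPk hPq hqP (hceil D hD)
  obtain ⟨hx0, hx1, hx2, -⟩ := ratio hκ hκ6 hPk hPq hqP (hceil x hx)
  have hF := hM.1
  have hq0 : (0 : ℝ) < q := by exact_mod_cast hq.pos
  have hP6 : (6 : ℝ) ≤ P := by
    have : (6 : ℝ) ≤ 1 / κ := by rw [le_div_iff₀ hκ]; linarith
    linarith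
  have hq4 : (q : ℝ) ≤ 4 * P := by nlinarith
  have hq4' : q ≤ 4 * P := by exact_mod_cast hq4
  -- `1 / q` and `1 / (x / q)` are small
  have hqk : 1 / (q : ℝ) ≤ κ / (4 * k + 1) := by
    have h3 : (4 * k + 1) / κ ≤ (q : ℝ) := hPk'.trans (by exact_mod_cast hPq)
    rw [div_le_iff₀ hκ] at h3
    rw [div_le_div_iff₀ hq0 (by positivity)]
    linarith
  have hX : (0 : ℝ) < ((x / q : ℕ) : ℝ) := by exact_mod_cast hx0
  have hxk : 1 / ((x / q : ℕ) : ℝ) ≤ κ / (4 * k + 1) := by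
    have h3 : ⌈(4 * k + 1) / κ⌉₊ ≤ x / q := by
      rw [Nat.le_div_iff_mul_le hq.pos]
      calc ⌈(4 * k + 1) / κ⌉₊ * q ≤ ⌈(4 * k + 1) / κ⌉₊ * (4 * P) := Nat.mul_le_mul_left _ hq4'
        _ = 4 * P * ⌈(4 * k + 1) / κ⌉₊ := Nat.mul_comm _ _
        _ ≤ x := (Nat.le_add_left _ _).trans hx
    have h4 : (4 * k + 1) / κ ≤ ((x / q : ℕ) : ℝ) := (Nat.le_ceil _).trans (by exact_mod_cast h3)
    rw [div_le_iff₀ hκ] at h4
    rw [div_le_div_iff₀ hX (by positivity)]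
    linarith
  have hη0 : 0 ≤ η := (norm_nonneg _).trans hη
  have hcb : ∀ X m, ‖cc a b F X m‖ ≤ 1 := by
    intro X m
    unfold cc
    refine norm_av_le zero_le_one fun n => ?_
    rw [norm_prod]
    exact Finset.prod_le_one (fun _ _ => norm_nonneg _) fun i _ => hF i _
  set G : ℂ := ∏ i, g i q with hG
  have hpt : ∀ d : ℤ, ‖S ((q : ℤ) * d) - z * cc a b F (x / P) d‖ ^ 2 ≤
      5 * ‖cc a b F x ((q : ℤ) * d) - S ((q : ℤ) * d)‖ ^ 2 +
      5 * ‖cc a b F x ((q : ℤ) * d) - cc a b (fun i m => F i ((q : ℤ) * m)) (x / q) d‖ ^ 2 +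
      (5 * η ^ 2 + 200 * κ) := by
    intro d
    have e : S ((q : ℤ) * d) - z * cc a b F (x / P) d =
        -(cc a b F x ((q : ℤ) * d) - S ((q : ℤ) * d)) +
        (cc a b F x ((q : ℤ) * d) - cc a b (fun i m => F i ((q : ℤ) * m)) (x / q) d) +
        (cc a b (fun i m => F i ((q : ℤ) * m)) (x / q) d - G * cc a b F (x / q) d) +
        (G - z) * cc a b F (x / q) d +
        z * (cc a b F (x / q) d - cc a b F (x / P) d) := by ring
    have t3 : ‖cc a b (fun i m => F i ((q : ℤ) * m)) (x / q) d - G * cc a b F (x / q) d‖ ≤ κ := by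
      refine (cc_mult (b := b) hM hq h1 h2 haq (x / q) hx0 d).trans ?_
      rw [← hk]
      have h3 : 1 / (q : ℝ) + 1 / ((x / q : ℕ) : ℝ) ≤ κ / (4 * k + 1) + κ / (4 * k + 1) :=
        add_le_add hqk hxk
      refine (mul_le_mul_of_nonneg_left h3 (by positivity)).trans ?_
      have h4 : 2 * k * (κ / (4 * k + 1) + κ / (4 * k + 1)) = κ * (4 * k / (4 * k + 1)) := by ring
      rw [h4]
      have h5 : 4 * k / (4 * k + 1) ≤ 1 := by rw [div_le_one (by positivity)]; linarith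
      exact mul_le_of_le_one_right hκ.le h5
    have t4 : ‖(G - z) * cc a b F (x / q) d‖ ≤ η := by
      rw [norm_mul]
      calc ‖G - z‖ * ‖cc a b F (x / q) d‖ ≤ η * 1 :=
            mul_le_mul hη (hcb _ _) (norm_nonneg _) hη0
        _ = η := mul_one _
    have t5 : ‖z * (cc a b F (x / q) d - cc a b F (x / P) d)‖ ≤ 6 * κ := by
      rw [norm_mul]
      have e2 : ‖cc a b F (x / q) d - cc a b F (x / P) d‖ ≤ 6 * κ := by
        unfold cc
        refine (av_compare hx0 hx1 fun n => ?_).trans (by linarith)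
        rw [norm_prod]
        exact Finset.prod_le_one (fun _ _ => norm_nonneg _) fun i _ => hF i _
      calc ‖z‖ * ‖cc a b F (x / q) d - cc a b F (x / P) d‖ ≤ 1 * (6 * κ) :=
            mul_le_mul hz e2 (norm_nonneg _) zero_le_one
        _ = 6 * κ := one_mul _
    rw [e]
    refine (norm5 _ _ _ _ _).trans ?_
    rw [norm_neg]
    have s3 := pow_le_pow_left₀ (norm_nonneg _) t3 2
    have s4 := pow_le_pow_left₀ (norm_nonneg _) t4 2
    have s5 := pow_le_pow_left₀ (norm_nonneg _) t5 2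
    have s6 : κ ^ 2 ≤ κ * (1 / 6) := by rw [sq]; exact mul_le_mul_of_nonneg_left hκ6 hκ.le
    nlinarith
  have := avr_le hD0 hpt hτ₁ hτ₂
  linarith

end Pool.Agent.N97.CH
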