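import Pool.Agent.N781.S.Iso

/-!
# Cell averages at neighbouring multiples (`S_IDX` of project S)
-/

set_option autoImplicit false
set_option linter.unusedSectionVars false

namespace Pool.Agent.N97.CH

open Finset Pool.Agent.N675 Pool.Agent.N781.FV Pool.Agent.N781.A Pool.Agent.N781.S

lemma card_real_le {α β : ℝ} (h : α ≤ β) (s : Finset ℤ)
    (hs : ∀ d ∈ s, α ≤ (d : ℝ) ∧ (d : ℝ) < β) : (s.card : ℝ) ≤ β - α + 1 := by
  have h1 : s ⊆ Finset.Ico ⌈α⌉ ⌈β⌉ := by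
    intro d hd
    obtain ⟨h2, h3⟩ := hs d hd
    exact Finset.mem_Ico.2 ⟨Int.ceil_le.2 h2, Int.lt_ceil.2 h3⟩
  have h2 : (s.card : ℝ) ≤ (((⌈β⌉ - ⌈α⌉).toNat : ℕ) : ℝ) := by
    have := Finset.card_le_card h1
    rw [Int.card_Ico] at this
    exact_mod_cast this
  have h3 : ⌈α⌉ ≤ ⌈β⌉ := Int.ceil_mono h
  have h4 : (((⌈β⌉ - ⌈α⌉).toNat : ℕ) : ℝ) = (⌈β⌉ : ℝ) - ⌈α⌉ := by
    have h5 : (((⌈β⌉ - ⌈α⌉).toNat : ℕ) : ℤ) = ⌈β⌉ - ⌈α⌉ := Int.toNat_of_nonneg (by linarith)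
    have h6 : ((((⌈β⌉ - ⌈α⌉).toNat : ℕ) : ℤ) : ℝ) = ((⌈β⌉ - ⌈α⌉ : ℤ) : ℝ) := by rw [h5]
    push_cast at h6
    exact h6
  have h5 := Int.ceil_lt_add_one β
  have h6 := Int.le_ceil α
  linarith

lemma norm_sf_le (M D : ℕ) {c : ℤ → ℂ} (hc : ∀ m, ‖c m‖ ≤ 1) (u r : ℤ) : ‖sf M D c u r‖ ≤ 1 := by
  unfold sf
  set s := (Icc (1 : ℤ) D).filter (fun e => ky M D e = (u, r % M)) with hs
  rw [norm_div, Complex.norm_natCast]
  apply div_le_one_of_le₀ _ (by positivity)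
  refine (norm_sum_le _ _).trans ((Finset.sum_le_sum fun e _ => hc e).trans ?_)
  rw [Finset.sum_const, nsmul_eq_mul, mul_one]

lemma sf_congr (M D : ℕ) (c : ℤ → ℂ) (u : ℤ) {r r' : ℤ} (h : r % M = r' % M) :
    sf M D c u r = sf M D c u r' := by
  unfold sf
  rw [h]

lemma St_eq (M D : ℕ) (c : ℤ → ℂ) {d : ℤ} (h : 1 ≤ d ∧ d ≤ D) :
    St M D c d = sf M D c ((d - 1) * M / D) d := by
  unfold St sf
  rw [if_pos h]
  rfl

/-- The number of the bad `d`. -/
lemma bad_card (M D X : ℕ) (lo hi : ℕ) (hM : 0 < M) (hD : 0 < D) (hlo : 0 < lo) (hlh : lo ≤ hi)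
    (hX : ∀ d ∈ Icc (1 : ℤ) X, (hi : ℤ) * d ≤ D) :
    (((Icc (1 : ℤ) X).filter fun d => ((lo : ℤ) * d - 1) * M / D ≠ ((hi : ℤ) * d - 1) * M / D).card
      : ℝ) ≤ M * ((D + 1) * (1 / (lo : ℝ) - 1 / hi) + 1) := by
  classical
  have hD' : (0 : ℤ) < D := by exact_mod_cast hD
  have hM' : (0 : ℤ) < M := by exact_mod_cast hM
  have hMr : (0 : ℝ) < M := by exact_mod_cast hM
  have hDr : (0 : ℝ) < D := by exact_mod_cast hD
  have hlor : (0 : ℝ) < lo := by exact_mod_cast hlo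
  have hlhr : (lo : ℝ) ≤ hi := by exact_mod_cast hlh
  have hhir : (0 : ℝ) < hi := lt_of_lt_of_le hlor hlhr
  have hinv : 0 ≤ 1 / (lo : ℝ) - 1 / hi := by
    rw [sub_nonneg]
    exact one_div_le_one_div_of_le hlor hlhr
  have hsub : ((Icc (1 : ℤ) X).filter fun d =>
      ((lo : ℤ) * d - 1) * M / D ≠ ((hi : ℤ) * d - 1) * M / D) ⊆
      (Icc (1 : ℤ) M).biUnion fun t => (Icc (1 : ℤ) X).filter fun d =>
        ((lo : ℤ) * d - 1) * M < t * D ∧ t * D ≤ ((hi : ℤ) * d - 1) * M := by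
    intro d hd
    rw [Finset.mem_filter] at hd
    obtain ⟨hd1, hd2⟩ := hd
    have hd1' := Finset.mem_Icc.1 hd1
    have hlod : (lo : ℤ) * d ≤ hi * d :=
      mul_le_mul_of_nonneg_right (by exact_mod_cast hlh) (by linarith)
    have hmono : ((lo : ℤ) * d - 1) * M ≤ ((hi : ℤ) * d - 1) * M :=
      mul_le_mul_of_nonneg_right (by linarith) hM'.le
    have huv := Int.ediv_le_ediv hD' hmono
    have hlt := lt_of_le_of_ne huv hd2
    have hlo1 : (1 : ℤ) ≤ lo := by exact_mod_cast hlo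
    have h0 : 0 ≤ ((lo : ℤ) * d - 1) * M := by
      apply mul_nonneg _ hM'.le
      nlinarith
    have hu0 : 0 ≤ ((lo : ℤ) * d - 1) * M / D := Int.ediv_nonneg h0 hD'.le
    have hvM : ((hi : ℤ) * d - 1) * M / D ≤ M := by
      apply Int.ediv_le_of_le_mul hD'
      have := hX d hd1
      nlinarith
    rw [Finset.mem_biUnion]
    refine ⟨((hi : ℤ) * d - 1) * M / D, Finset.mem_Icc.2 ⟨by linarith, hvM⟩,
      Finset.mem_filter.2 ⟨hd1, ?_, Int.ediv_mul_le _ hD'.ne'⟩⟩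
    exact (Int.ediv_lt_iff_lt_mul hD').1 hlt
  have hcard := (Finset.card_le_card hsub).trans Finset.card_biUnion_le
  have hcard' : (((Icc (1 : ℤ) X).filter fun d =>
      ((lo : ℤ) * d - 1) * M / D ≠ ((hi : ℤ) * d - 1) * M / D).card : ℝ) ≤
      ∑ t ∈ Icc (1 : ℤ) M, (((Icc (1 : ℤ) X).filter fun d =>
        ((lo : ℤ) * d - 1) * M < t * D ∧ t * D ≤ ((hi : ℤ) * d - 1) * M).card : ℝ) := by
    exact_mod_cast hcard
  refine hcard'.trans ?_
  have hterm : ∀ t ∈ Icc (1 : ℤ) M, (((Icc (1 : ℤ) X).filter fun d =>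
        ((lo : ℤ) * d - 1) * M < t * D ∧ t * D ≤ ((hi : ℤ) * d - 1) * M).card : ℝ) ≤
        (D + 1) * (1 / (lo : ℝ) - 1 / hi) + 1 := by
    intro t ht
    rw [Finset.mem_Icc] at ht
    have ht1 : (1 : ℝ) ≤ t := by exact_mod_cast ht.1
    have ht2 : (t : ℝ) ≤ M := by exact_mod_cast ht.2
    set A : ℝ := t * D / M + 1 with hA
    have hA0 : 0 ≤ A := by positivity
    have hAD : A ≤ D + 1 := by
      rw [hA]
      have : (t : ℝ) * D / M ≤ D := by
        rw [div_le_iff₀ hMr]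
        nlinarith
      linarith
    have h1 := card_real_le (α := A / hi) (β := A / lo)
      (div_le_div_of_nonneg_left hA0 hlor hlhr)
      ((Icc (1 : ℤ) X).filter fun d =>
        ((lo : ℤ) * d - 1) * M < t * D ∧ t * D ≤ ((hi : ℤ) * d - 1) * M) (by
      intro d hd
      rw [Finset.mem_filter] at hd
      obtain ⟨-, h2, h3⟩ := hd
      have h2' : ((lo : ℝ) * d - 1) * M < t * D := by exact_mod_cast h2
      have h3' : (t : ℝ) * D ≤ ((hi : ℝ) * d - 1) * M := by exact_mod_cast h3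
      rw [← lt_div_iff₀ hMr] at h2'
      rw [← div_le_iff₀ hMr] at h3'
      constructor
      · rw [div_le_iff₀ hhir]
        linarith
      · rw [lt_div_iff₀ hlor]
        linarith)
    refine h1.trans ?_
    have h2 : A / lo - A / hi = A * (1 / (lo : ℝ) - 1 / hi) := by ring
    rw [h2]
    linarith [mul_le_mul_of_nonneg_right hAD hinv]
  refine (Finset.sum_le_sum hterm).trans ?_
  rw [Finset.sum_const, Int.card_Icc, nsmul_eq_mul]
  have h5 : ((((M : ℤ) + 1 - 1).toNat : ℕ) : ℝ) = (M : ℝ) := by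
    have : ((M : ℤ) + 1 - 1).toNat = M := by omega
    rw [this]
  rw [h5]

theorem idx : S_IDX := by
  intro M κ P hM hκ hκ6 hPk
  have hPk1 : 1 ≤ κ * P := by
    have := (div_le_iff₀ hκ).1 hPk
    linarith
  have hP6 : (6 : ℝ) ≤ P := by
    have : (6 : ℝ) ≤ 1 / κ := by rw [le_div_iff₀ hκ]; linarith
    linarith
  have hP0 : (0 : ℝ) < P := by linarith
  refine ⟨⌈2 * (P : ℝ) / κ⌉₊ + 1, fun D hD p p' m hp hp' hpq hpq' hmod c hc => ?_⟩
  have hDk : 2 * (P : ℝ) / κ ≤ D := (Nat.le_ceil _).trans (Nat.cast_le.2 (by omega))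
  have hDk' : 2 * (P : ℝ) ≤ κ * D := by
    have := (div_le_iff₀ hκ).1 hDk
    linarith
  have hD0 : 0 < D := by omega
  have hDr : (0 : ℝ) < D := by exact_mod_cast hD0
  have hMr : (1 : ℝ) ≤ M := by exact_mod_cast hM
  set X : ℕ := min (D / p) (D / p') with hX
  have hpr : (P : ℝ) ≤ p := by exact_mod_cast hp
  have hpr' : (P : ℝ) ≤ p' := by exact_mod_cast hp'
  have hp0 : 0 < p := by
    have : (0 : ℝ) < p := by linarith
    exact_mod_cast this
  have hp0' : 0 < p' := by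
    have : (0 : ℝ) < p' := by linarith
    exact_mod_cast this
  have h14 : (1 + κ) * ((P : ℝ) + 1) ≤ 49 / 36 * P := by nlinarith
  -- the size of `X`
  have hXge : ∀ q : ℕ, 0 < q → (q : ℝ) ≤ (1 + κ) * (P + 1) →
      (D : ℝ) / (49 / 36 * P) - 1 ≤ ((D / q : ℕ) : ℝ) := by
    intro q hq0 hq
    have hq0' : (0 : ℝ) < q := by exact_mod_cast hq0
    have h1 : (D : ℝ) < q * (((D / q : ℕ) : ℝ) + 1) := by
      have := Nat.lt_mul_div_succ D hq0
      exact_mod_cast this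
    have h2 : (D : ℝ) / (49 / 36 * P) ≤ D / q :=
      div_le_div_of_nonneg_left hDr.le hq0' (hq.trans h14)
    have h3 : (D : ℝ) / q < ((D / q : ℕ) : ℝ) + 1 := by
      rw [div_lt_iff₀ hq0']
      linarith
    linarith
  have hX1 : (D : ℝ) / (49 / 36 * P) - 1 ≤ X := by
    rw [hX, Nat.cast_min]
    exact le_min (hXge p hp0 hpq) (hXge p' hp0' hpq')
  have hXκ : 36 / 49 * (κ * D / P) - κ ≤ κ * X := by
    have h1 := mul_le_mul_of_nonneg_left hX1 hκ.le
    have h2 : κ * ((D : ℝ) / (49 / 36 * P) - 1) = 36 / 49 * (κ * D / P) - κ := by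
      field_simp
    linarith
  have hDP : 2 ≤ κ * D / P := by
    rw [le_div_iff₀ hP0]
    linarith
  have hXpos : (0 : ℝ) < X := by
    by_contra hneg
    push Not at hneg
    have : κ * X ≤ 0 := mul_nonpos_of_nonneg_of_nonpos hκ.le hneg
    linarith
  have hXp : ∀ d ∈ Icc (1 : ℤ) X, (p : ℤ) * d ≤ D ∧ (p' : ℤ) * d ≤ D := by
    intro d hd
    rw [Finset.mem_Icc] at hd
    have h1 : (X : ℤ) ≤ ((D / p : ℕ) : ℤ) := by exact_mod_cast min_le_left _ _
    have h2 : (X : ℤ) ≤ ((D / p' : ℕ) : ℤ) := by exact_mod_cast min_le_right _ _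
    have h3 : (p : ℤ) * ((D / p : ℕ) : ℤ) ≤ D := by exact_mod_cast Nat.mul_div_le D p
    have h4 : (p' : ℤ) * ((D / p' : ℕ) : ℤ) ≤ D := by exact_mod_cast Nat.mul_div_le D p'
    have h5 : (0 : ℤ) ≤ p := by positivity
    have h6 : (0 : ℤ) ≤ p' := by positivity
    exact ⟨(mul_le_mul_of_nonneg_left (hd.2.trans h1) h5).trans h3,
      (mul_le_mul_of_nonneg_left (hd.2.trans h2) h6).trans h4⟩
  -- the bad set
  set bad := (Icc (1 : ℤ) X).filter fun d =>
    ((p : ℤ) * d - 1) * M / D ≠ ((p' : ℤ) * d - 1) * M / D with hbad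
  have hbadc : (bad.card : ℝ) ≤ M * ((D + 1) * (13 / 6 * κ / P) + 1) := by
    have key : ∀ lo hi : ℕ, (P : ℝ) ≤ lo → lo ≤ hi → (hi : ℝ) ≤ (1 + κ) * (P + 1) →
        1 / (lo : ℝ) - 1 / hi ≤ 13 / 6 * κ / P := by
      intro lo hi h1 h2 h3
      have h2' : (lo : ℝ) ≤ hi := by exact_mod_cast h2
      have hlo : (0 : ℝ) < lo := by linarith
      have hhi : (0 : ℝ) < hi := by linarith
      have e : 1 / (lo : ℝ) - 1 / hi = (hi - lo) / (lo * hi) := by field_simp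
      rw [e, div_le_div_iff₀ (by positivity) hP0]
      have h4 : (hi : ℝ) - lo ≤ 13 / 6 * (κ * P) := by nlinarith
      have h5 : (P : ℝ) * P ≤ lo * hi := mul_le_mul h1 (h1.trans h2') hP0.le hlo.le
      calc ((hi : ℝ) - lo) * P ≤ 13 / 6 * (κ * P) * P := mul_le_mul_of_nonneg_right h4 hP0.le
        _ = 13 / 6 * κ * (P * P) := by ring
        _ ≤ 13 / 6 * κ * (lo * hi) := mul_le_mul_of_nonneg_left h5 (by positivity)
    rcases le_total p p' with h | h
    · have h1 := bad_card M D X p p' hM hD0 hp0 h (fun d hd => (hXp d hd).2)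
      have h2 := key p p' hpr h hpq'
      refine h1.trans ?_
      gcongr
    · have h1 := bad_card M D X p' p hM hD0 hp0' h (fun d hd => (hXp d hd).1)
      have h2 := key p' p hpr' h hpq
      have h3 : bad = (Icc (1 : ℤ) X).filter fun d =>
          ((p' : ℤ) * d - 1) * M / D ≠ ((p : ℤ) * d - 1) * M / D := by
        rw [hbad]
        refine Finset.filter_congr fun d _ => ne_comm
      rw [h3]
      refine h1.trans ?_
      gcongr
  -- the values
  have hval : ∀ d ∈ Icc (1 : ℤ) X,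
      ‖St M D c ((p' : ℤ) * d) - Sta M D m c ((p : ℤ) * d)‖ ^ 2 ≤
        if d ∈ bad then 4 else 0 := by
    intro d hd
    obtain ⟨h1, h2⟩ := hXp d hd
    have hd1 := (Finset.mem_Icc.1 hd).1
    have hp1 : (1 : ℤ) ≤ p := by exact_mod_cast hp0
    have hp1' : (1 : ℤ) ≤ p' := by exact_mod_cast hp0'
    have h3 : (1 : ℤ) ≤ p * d := by nlinarith
    have h4 : (1 : ℤ) ≤ p' * d := by nlinarith
    have hmod' : ((p' : ℤ) * d) % M = ((m : ℤ) * (p * d)) % M := by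
      have h5 : (p' : ℤ) % M = ((m : ℤ) * p) % M := by exact_mod_cast hmod
      rw [← mul_assoc, Int.mul_emod, h5, ← Int.mul_emod]
    have e1 : St M D c ((p' : ℤ) * d) = sf M D c (((p' : ℤ) * d - 1) * M / D) ((m : ℤ) * (p * d)) := by
      rw [St_eq M D c ⟨h4, h2⟩]
      exact sf_congr M D c _ hmod'
    have e2 : Sta M D m c ((p : ℤ) * d) =
        sf M D c (((p : ℤ) * d - 1) * M / D) ((m : ℤ) * (p * d)) := by
      unfold Sta
      rw [if_pos ⟨h3, h1⟩]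
    rw [e1, e2]
    by_cases hb : d ∈ bad
    · rw [if_pos hb]
      have h6 := norm_sf_le M D hc (((p' : ℤ) * d - 1) * M / D) ((m : ℤ) * (p * d))
      have h7 := norm_sf_le M D hc (((p : ℤ) * d - 1) * M / D) ((m : ℤ) * (p * d))
      have h8 : ‖sf M D c (((p' : ℤ) * d - 1) * M / D) ((m : ℤ) * (p * d)) -
          sf M D c (((p : ℤ) * d - 1) * M / D) ((m : ℤ) * (p * d))‖ ≤ 2 :=
        (norm_sub_le _ _).trans (by linarith)
      calc _ ≤ (2 : ℝ) ^ 2 := pow_le_pow_left₀ (norm_nonneg _) h8 2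
        _ = 4 := by norm_num
    · rw [if_neg hb]
      have h6 : ((p : ℤ) * d - 1) * M / D = ((p' : ℤ) * d - 1) * M / D := by
        by_contra h7
        exact hb (Finset.mem_filter.2 ⟨hd, h7⟩)
      rw [h6, sub_self, norm_zero]
      norm_num
  unfold avr
  rw [div_le_iff₀ hXpos]
  refine (Finset.sum_le_sum hval).trans ?_
  rw [← Finset.sum_filter]
  have hfil : (Icc (1 : ℤ) X).filter (fun d => d ∈ bad) = bad := by
    ext d
    rw [Finset.mem_filter]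
    exact ⟨fun h => h.2, fun h => ⟨(Finset.mem_filter.1 h).1, h⟩⟩
  rw [hfil, Finset.sum_const, nsmul_eq_mul]
  have h1 : ((D : ℝ) + 1) * (13 / 6 * κ / P) + 1 ≤ 5 * (κ * X) := by
    have e : ((D : ℝ) + 1) * (13 / 6 * κ / P) = 13 / 6 * (κ * D / P) + 13 / 6 * (κ / P) := by
      field_simp
    rw [e]
    have h2 : κ / P ≤ κ := div_le_self hκ.le (by linarith)
    linarith
  calc (bad.card : ℝ) * 4 ≤ (M * ((D + 1) * (13 / 6 * κ / P) + 1)) * 4 :=
        mul_le_mul_of_nonneg_right hbadc (by norm_num)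
    _ ≤ (M * (5 * (κ * X))) * 4 := by gcongr
    _ = 20 * M * κ * X := by ring

end Pool.Agent.N97.CH
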